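import Pool.Agent.SZG.StmtsE

/-!
# Squad SZG, row QCS: cosets of a subgroup of order `l`
-/

set_option autoImplicit false

namespace Pool.Agent.SZG.H78

open scoped BigOperators
open Pool.Agent.THS Pool.Agent.SZG

theorem qcs : QcsStmt := by
  classical
  intro g l p q hl hodd hne
  obtain ⟨h, hh⟩ : ∃ h : ℕ, 2 * h = l + 1 := by
    obtain ⟨k, hk⟩ := hodd
    exact ⟨k + 1, by omega⟩
  obtain ⟨D, hD⟩ : ∃ D : Fin g ⊕ Fin g → ℤ, D = Sum.elim p q := ⟨_, rfl⟩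
  obtain ⟨j0, hj0⟩ : ∃ j0, ¬ (l : ℤ) ∣ D j0 := by
    obtain ⟨i, hi | hi⟩ := hne
    · exact ⟨Sum.inl i, by rw [hD]; exact hi⟩
    · exact ⟨Sum.inr i, by rw [hD]; exact hi⟩
  have hlz : Prime (l : ℤ) := Nat.prime_iff_prime_int.1 hl
  obtain ⟨w, u, huw⟩ := (Prime.coprime_iff_not_dvd hlz).2 hj0
  have : NeZero l := ⟨hl.ne_zero⟩
  have hcard : Fintype.card ({j : Fin g ⊕ Fin g // j ≠ j0} → ZMod l) = l ^ (2 * g - 1) := by
    rw [Fintype.card_fun, ZMod.card, Fintype.card_subtype_compl, Fintype.card_sum,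
      Fintype.card_fin, Fintype.card_subtype_eq, ← two_mul]
  obtain ⟨φ⟩ : Nonempty (({j : Fin g ⊕ Fin g // j ≠ j0} → ZMod l) ≃ Fin (l ^ (2 * g - 1))) :=
    ⟨Fintype.equivFinOfCardEq hcard⟩
  obtain ⟨vec, hvec⟩ : ∃ vec : Bx g l → (Fin g ⊕ Fin g) → ℤ, vec = fun b =>
    Sum.elim (fun i => ((b.1 i).val : ℤ)) (fun i => ((b.2 i).val : ℤ)) := ⟨_, rfl⟩
  obtain ⟨cb, hcb⟩ : ∃ cb : Bx g l → (Fin g ⊕ Fin g) → ℤ, cb = fun b j =>
    vec b j - u * vec b j0 * D j := ⟨_, rfl⟩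
  obtain ⟨lift, hlift⟩ : ∃ lift : ({j : Fin g ⊕ Fin g // j ≠ j0} → ZMod l) →
    (Fin g ⊕ Fin g) → ℤ, lift = fun c j => if hj : j ≠ j0 then ((c ⟨j, hj⟩).val : ℤ) else 0 :=
    ⟨_, rfl⟩
  obtain ⟨cl, hcl⟩ : ∃ cl : Bx g l → ({j : Fin g ⊕ Fin g // j ≠ j0} → ZMod l), cl = fun b j =>
    ((cb b j.1 : ℤ) : ZMod l) := ⟨_, rfl⟩
  have key : ∀ b j, (l : ℤ) ∣ cb b j - lift (cl b) j := by
    intro b j
    by_cases hj : j = j0
    · rw [hlift, hj, hcb]
      simp only [ne_eq, not_true_eq_false, dite_false]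
      refine ⟨w * vec b j0, ?_⟩
      linear_combination (vec b j0) * (-huw)
    · have h1 : (((lift (cl b) j : ℤ)) : ZMod l) = ((cb b j : ℤ) : ZMod l) := by
        rw [hlift, hcl]
        simp only [ne_eq, hj, not_false_eq_true, dite_true]
        rw [Int.cast_natCast, ZMod.natCast_zmod_val]
      exact (ZMod.intCast_eq_intCast_iff_dvd_sub _ _ _).1 h1
  refine ⟨fun b => φ (cl b), fun t => (0, fun i => (h : ℤ) * lift (φ.symm t) (Sum.inl i),
    fun i => (h : ℤ) * lift (φ.symm t) (Sum.inr i)), fun b => (h : ℤ) * (u * vec b j0),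
    fun t => rfl, ?_⟩
  intro b
  have hhz : (2 : ℤ) * h = l + 1 := by exact_mod_cast hh
  have key2 : ∀ j, ∃ z : ℤ, vec b j = 2 * ((h : ℤ) * lift (cl b) j)
      + 2 * ((h : ℤ) * (u * vec b j0)) * D j + l * z := by
    intro j
    obtain ⟨z, hz⟩ := key b j
    rw [hcb] at hz
    refine ⟨z - (lift (cl b) j + u * vec b j0 * D j), ?_⟩
    have hz' : vec b j - u * vec b j0 * D j - lift (cl b) j = l * z := hz
    linear_combination hz' - (lift (cl b) j + u * vec b j0 * D j) * hhz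
  choose z hz using key2
  refine ⟨fun i => z (Sum.inl i), fun i => z (Sum.inr i), ?_⟩
  simp only [Equiv.symm_apply_apply]
  refine Prod.ext ?_ (Prod.ext ?_ ?_)
  · simp [lft]
  · funext i
    have h1 := hz (Sum.inl i)
    have h2 : vec b (Sum.inl i) = ((b.1 i).val : ℤ) := by rw [hvec]; rfl
    have h3 : D (Sum.inl i) = p i := by rw [hD]; rfl
    rw [h3] at h1
    simp only [lft, Prod.snd_add, Prod.fst_add, Prod.smul_snd, Prod.smul_fst, Pi.add_apply,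
      Pi.smul_apply, smul_eq_mul]
    rw [← h2, h1]
  · funext i
    have h1 := hz (Sum.inr i)
    have h2 : vec b (Sum.inr i) = ((b.2 i).val : ℤ) := by rw [hvec]; rfl
    have h3 : D (Sum.inr i) = q i := by rw [hD]; rfl
    rw [h3] at h1
    simp only [lft, Prod.snd_add, Prod.smul_snd, Pi.add_apply,
      Pi.smul_apply, smul_eq_mul]
    rw [← h2, h1]

end Pool.Agent.SZG.H78
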